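import Mathlib
import Pool.Agent.R120.Merge

set_option autoImplicit false

/-! Irreducible exact-splittings of infinite permutation classes are not unique.

Let `I` be the class of increasing permutations, `P` the class of permutations of length at most
one, and `F` the class of permutations of length at most three avoiding `213` and `312`. All
permutations of length at most four: `P ⊙ P ⊙ P ⊙ P = P ⊙ F`. Hence the infinite class `C` of all
permutations that can be made increasing by deleting at most four entries satisfies
`C = I ⊙ P ⊙ P ⊙ P ⊙ P = I ⊙ P ⊙ F`, and neither `I` nor `P` nor `F` is exact-splittable. -/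

namespace Pool.Agent.Results.MP_673260_co.InfiniteNonunique

open Pool.Agent.R120 Pool.Agent.R120.Merge

/-- There is an infinite permutation class with two different irreducible exact-splittings. -/
theorem result : ∃ C : Set AllPerms, IsClass C ∧ C.Infinite ∧
    ∃ S T : Set (Set AllPerms), IrreducibleSplitting C S ∧ IrreducibleSplitting C T ∧ S ≠ T :=
  ⟨merge Inc (Short 4), isClass_merge isClass_inc (isClass_short 4), infinite_merge,
    {Inc, Short 1}, {Inc, Short 1, Four}, split1, split2, ne12⟩

end Pool.Agent.Results.MP_673260_co.InfiniteNonunique
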